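import Mathlib

/-!
# Projective unitary families with a tracial vector

An abstract form of the twisted left regular representation: unitaries `u g` on a Hilbert space
with `u g * u h = c g h • u (g * h)` and a vector `Ω` such that the `u g Ω` are orthonormal.
-/

set_option autoImplicit false

namespace Pool.Agent.P.MP_6efe58_an

open scoped InnerProductSpace ComplexConjugate
open Finset

/-- A projective unitary family with an orthonormal orbit. -/
structure Sys (G H : Type*) [Group G] [NormedAddCommGroup H] [InnerProductSpace ℂ H]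
    [CompleteSpace H] where
  u : G → H →L[ℂ] H
  Ω : H
  c : G → G → ℂ
  norm_c : ∀ g h, ‖c g h‖ = 1
  u_mul : ∀ g h, u g * u h = c g h • u (g * h)
  u_one : u 1 = 1
  hsu : ∀ g, star (u g) * u g = 1
  hus : ∀ g, u g * star (u g) = 1
  orth : Orthonormal ℂ (fun g => u g Ω)

namespace Sys

variable {G H : Type*} [Group G] [NormedAddCommGroup H] [InnerProductSpace ℂ H] [CompleteSpace H]
  (S : Sys G H)

lemma norm_Ω : ‖S.Ω‖ = 1 := by
  have := S.orth.1 1
  simpa [S.u_one] using this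

lemma c_ne (g h : G) : S.c g h ≠ 0 := by
  intro h0
  have := S.norm_c g h
  rw [h0, norm_zero] at this
  exact zero_ne_one this

include S in
lemma nontrivial : Nontrivial H :=
  ⟨⟨S.Ω, 0, fun h => by have := S.norm_Ω; rw [h, norm_zero] at this; exact zero_ne_one this⟩⟩

lemma u_mem_unitary (g : G) : S.u g ∈ unitary (H →L[ℂ] H) := ⟨S.hsu g, S.hus g⟩

lemma norm_u (g : G) : ‖S.u g‖ = 1 := by
  have := S.nontrivial
  exact CStarRing.norm_of_mem_unitary (S.u_mem_unitary g)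

lemma norm_mul_u (x : H →L[ℂ] H) (g : G) : ‖x * S.u g‖ = ‖x‖ :=
  CStarRing.norm_mul_mem_unitary x (S.u_mem_unitary g)

lemma star_u (g : G) : star (S.u g) = (S.c g g⁻¹)⁻¹ • S.u g⁻¹ := by
  have h1 := S.u_mul g g⁻¹
  rw [mul_inv_cancel, S.u_one] at h1
  have h2 : star (S.u g) * (S.u g * S.u g⁻¹) = S.u g⁻¹ := by
    rw [← mul_assoc, S.hsu, one_mul]
  rw [h1, mul_smul_comm, mul_one] at h2
  rw [← h2, smul_smul, inv_mul_cancel₀ (S.c_ne _ _), one_smul]

lemma c_inv (g : G) : S.c g g⁻¹ = S.c g⁻¹ g := by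
  have h1 := S.u_mul g g⁻¹
  have h2 := S.u_mul g⁻¹ g
  rw [mul_inv_cancel, S.u_one] at h1
  rw [inv_mul_cancel, S.u_one] at h2
  have h3 : S.c g g⁻¹ • S.u g = S.c g⁻¹ g • S.u g := by
    calc S.c g g⁻¹ • S.u g = (S.u g * S.u g⁻¹) * S.u g := by rw [h1, smul_mul_assoc, one_mul]
      _ = S.u g * (S.u g⁻¹ * S.u g) := mul_assoc _ _ _
      _ = S.c g⁻¹ g • S.u g := by rw [h2, mul_smul_comm, mul_one]
  have h4 : S.u g ≠ 0 := by
    intro h0
    have := S.norm_u g
    rw [h0, norm_zero] at this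
    exact zero_ne_one this
  exact smul_left_injective ℂ h4 h3

/-- The Fourier coefficient. -/
noncomputable def coef (g : G) : (H →L[ℂ] H) →L[ℂ] ℂ :=
  (innerSL ℂ (S.u g S.Ω)).comp (ContinuousLinearMap.apply ℂ H S.Ω)

lemma coef_apply (g : G) (x : H →L[ℂ] H) : S.coef g x = ⟪S.u g S.Ω, x S.Ω⟫_ℂ := rfl

lemma coef_one (x : H →L[ℂ] H) : S.coef 1 x = ⟪S.Ω, x S.Ω⟫_ℂ := by
  rw [coef_apply, S.u_one]; rfl

open Classical in
lemma coef_u (g h : G) : S.coef g (S.u h) = if g = h then 1 else 0 :=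
  orthonormal_iff_ite.1 S.orth g h

lemma norm_coef_le' (g : G) (x : H →L[ℂ] H) : ‖S.coef g x‖ ≤ ‖x S.Ω‖ := by
  rw [coef_apply]
  refine (norm_inner_le_norm _ _).trans ?_
  rw [S.orth.1 g, one_mul]

lemma norm_apply_le (x : H →L[ℂ] H) : ‖x S.Ω‖ ≤ ‖x‖ := by
  simpa [S.norm_Ω] using x.le_opNorm S.Ω

lemma norm_coef_le (g : G) (x : H →L[ℂ] H) : ‖S.coef g x‖ ≤ ‖x‖ :=
  (S.norm_coef_le' g x).trans (S.norm_apply_le x)

lemma coef_star_mul (x y : H →L[ℂ] H) : S.coef 1 (star x * y) = ⟪x S.Ω, y S.Ω⟫_ℂ := by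
  rw [coef_one, ContinuousLinearMap.star_eq_adjoint, mul_apply_eq_comp,
    ContinuousLinearMap.adjoint_inner_right]

lemma re_coef_star_mul_self (x : H →L[ℂ] H) : (S.coef 1 (star x * x)).re = ‖x S.Ω‖ ^ 2 := by
  rw [coef_star_mul, inner_self_eq_norm_sq_to_K]
  norm_cast

lemma re_coef_nonneg {x : H →L[ℂ] H} (hx : 0 ≤ x) : 0 ≤ (S.coef 1 x).re := by
  rw [coef_one]
  exact ((ContinuousLinearMap.nonneg_iff_isPositive x).1 hx).re_inner_nonneg_right S.Ω

lemma re_coef_mono {x y : H →L[ℂ] H} (h : x ≤ y) : (S.coef 1 x).re ≤ (S.coef 1 y).re := by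
  have := S.re_coef_nonneg (sub_nonneg.2 h)
  rw [map_sub, Complex.sub_re] at this
  linarith

/-- The span of the unitaries. -/
def sp : Submodule ℂ (H →L[ℂ] H) := Submodule.span ℂ (Set.range S.u)

lemma u_mem_sp (g : G) : S.u g ∈ S.sp := Submodule.subset_span ⟨g, rfl⟩

lemma sp_mul {x y : H →L[ℂ] H} (hx : x ∈ S.sp) (hy : y ∈ S.sp) : x * y ∈ S.sp := by
  induction hx, hy using Submodule.span_induction₂ with
  | mem_mem x y hx hy =>
    obtain ⟨g, rfl⟩ := hx
    obtain ⟨h, rfl⟩ := hy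
    rw [S.u_mul]
    exact S.sp.smul_mem _ (S.u_mem_sp _)
  | zero_left y _ => simp
  | zero_right x _ => simp
  | add_left x y z _ _ _ h1 h2 => rw [add_mul]; exact S.sp.add_mem h1 h2
  | add_right x y z _ _ _ h1 h2 => rw [mul_add]; exact S.sp.add_mem h1 h2
  | smul_left r x y _ _ h => rw [smul_mul_assoc]; exact S.sp.smul_mem _ h
  | smul_right r x y _ _ h => rw [mul_smul_comm]; exact S.sp.smul_mem _ h

lemma sp_star {x : H →L[ℂ] H} (hx : x ∈ S.sp) : star x ∈ S.sp := by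
  induction hx using Submodule.span_induction with
  | mem x hx =>
    obtain ⟨g, rfl⟩ := hx
    rw [S.star_u]
    exact S.sp.smul_mem _ (S.u_mem_sp _)
  | zero => simp
  | add x y _ _ h1 h2 => rw [star_add]; exact S.sp.add_mem h1 h2
  | smul r x _ h => rw [star_smul]; exact S.sp.smul_mem _ h

/-- The span as a star subalgebra. -/
def alg0 : StarSubalgebra ℂ (H →L[ℂ] H) where
  carrier := S.sp
  mul_mem' := S.sp_mul
  add_mem' := S.sp.add_mem
  algebraMap_mem' r := by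
    rw [Algebra.algebraMap_eq_smul_one, ← S.u_one]
    exact S.sp.smul_mem _ (S.u_mem_sp 1)
  star_mem' := S.sp_star

/-- The C*-algebra generated by the unitaries. -/
noncomputable def alg : StarSubalgebra ℂ (H →L[ℂ] H) := S.alg0.topologicalClosure

lemma mem_alg {x : H →L[ℂ] H} : x ∈ S.alg ↔ x ∈ closure (S.sp : Set (H →L[ℂ] H)) := Iff.rfl

instance : IsClosed (S.alg : Set (H →L[ℂ] H)) := isClosed_closure

lemma isClosed_alg : IsClosed (S.alg : Set (H →L[ℂ] H)) := isClosed_closure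

lemma mem_alg_of_sp {x : H →L[ℂ] H} (hx : x ∈ S.sp) : x ∈ S.alg := subset_closure hx

lemma u_mem_alg (g : G) : S.u g ∈ S.alg := S.mem_alg_of_sp (S.u_mem_sp g)

lemma trace_sp {x y : H →L[ℂ] H} (hx : x ∈ S.sp) (hy : y ∈ S.sp) :
    S.coef 1 (x * y) = S.coef 1 (y * x) := by
  induction hx, hy using Submodule.span_induction₂ with
  | mem_mem x y hx hy =>
    obtain ⟨g, rfl⟩ := hx
    obtain ⟨h, rfl⟩ := hy
    rw [S.u_mul, S.u_mul, map_smul, map_smul, coef_u, coef_u]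
    by_cases hgh : 1 = g * h
    · have h1 : h = g⁻¹ := eq_inv_of_mul_eq_one_right hgh.symm
      subst h1
      simp [S.c_inv]
    · have h2 : ¬ 1 = h * g := fun h3 => hgh (by
        rw [eq_inv_of_mul_eq_one_left h3.symm, mul_inv_cancel])
      simp [hgh, h2]
  | zero_left y _ => simp
  | zero_right x _ => simp
  | add_left x y z _ _ _ h1 h2 => rw [add_mul, mul_add, map_add, map_add, h1, h2]
  | add_right x y z _ _ _ h1 h2 => rw [add_mul, mul_add, map_add, map_add, h1, h2]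
  | smul_left r x y _ _ h => rw [smul_mul_assoc, mul_smul_comm, map_smul, map_smul, h]
  | smul_right r x y _ _ h => rw [smul_mul_assoc, mul_smul_comm, map_smul, map_smul, h]

lemma trace {x y : H →L[ℂ] H} (hx : x ∈ S.alg) (hy : y ∈ S.alg) :
    S.coef 1 (x * y) = S.coef 1 (y * x) := by
  have h1 : ∀ x ∈ S.sp, S.coef 1 (x * y) = S.coef 1 (y * x) := by
    intro x hx
    have hc : IsClosed {y | S.coef 1 (x * y) = S.coef 1 (y * x)} :=
      isClosed_eq (by fun_prop) (by fun_prop)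
    exact closure_minimal (fun y hy => S.trace_sp hx hy) hc (S.mem_alg.1 hy)
  have hc : IsClosed {x | S.coef 1 (x * y) = S.coef 1 (y * x)} :=
    isClosed_eq (by fun_prop) (by fun_prop)
  exact closure_minimal h1 hc (S.mem_alg.1 hx)

lemma norm_star_apply {x : H →L[ℂ] H} (hx : x ∈ S.alg) : ‖(star x) S.Ω‖ = ‖x S.Ω‖ := by
  have h1 := S.re_coef_star_mul_self x
  have h2 := S.re_coef_star_mul_self (star x)
  rw [star_star, S.trace hx (star_mem hx), h1] at h2
  exact (sq_eq_sq₀ (norm_nonneg _) (norm_nonneg _)).1 h2.symm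

lemma coef_sum_u (E : Finset G) (a : G → ℂ) {g : G} (hg : g ∈ E) :
    S.coef g (∑ h ∈ E, a h • S.u h) = a g := by
  classical
  simp only [map_sum, map_smul, coef_u, smul_eq_mul, mul_ite, mul_one, mul_zero]
  rw [sum_ite_eq E g a, if_pos hg]

lemma norm_sum_u_apply_sq (E : Finset G) (a : G → ℂ) :
    ‖(∑ h ∈ E, a h • S.u h) S.Ω‖ ^ 2 = ∑ h ∈ E, ‖a h‖ ^ 2 := by
  have h1 : (∑ h ∈ E, a h • S.u h) S.Ω = ∑ h ∈ E, a h • S.u h S.Ω := by
    simp
  have h2 := S.orth.inner_sum a a E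
  rw [h1]
  rw [inner_self_eq_norm_sq_to_K] at h2
  have h3 : ∀ h ∈ E, conj (a h) * a h = ((‖a h‖ ^ 2 : ℝ) : ℂ) := by
    intro h _
    rw [Complex.conj_mul', Complex.ofReal_pow]
  rw [sum_congr rfl h3] at h2
  apply Complex.ofReal_injective
  push_cast at h2 ⊢
  exact h2

lemma exists_sum_of_mem_sp {x : H →L[ℂ] H} (hx : x ∈ S.sp) :
    ∃ (E : Finset G) (a : G → ℂ), x = ∑ h ∈ E, a h • S.u h := by
  obtain ⟨a, ha⟩ := Finsupp.mem_span_range_iff_exists_finsupp.1 hx
  exact ⟨a.support, a, ha.symm⟩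

end Sys

end Pool.Agent.P.MP_6efe58_an
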