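import Pool.Agent.P.MP_6efe58_an.Uncond

/-!
# A set on which the heat kernel is summable and which carries a divergent Fourier series
-/

set_option autoImplicit false

namespace Pool.Agent.P.MP_6efe58_an

open scoped InnerProductSpace ComplexConjugate
open Finset Filter Topology

lemma exists_set {G : Type*} [Group G] [Countable G] (d : G → ℝ)
    (hd : ∀ f g, d g ≤ 2 * d f⁻¹ + 2 * d (f * g)) (hunb : ¬ BddAbove (Set.range d)) :
    ∃ T : Set G, (∀ t : ℝ, 0 < t → Summable (T.indicator (fun g => Real.exp (-t * d g)))) ∧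
      ∀ E : Finset G, ∃ h, ∀ f ∈ E, f * h ∈ T := by
  classical
  obtain ⟨e, he⟩ := exists_surjective_nat G
  have h1 : ∀ n : ℕ, ∃ h : G, ∀ k ≤ n, (n : ℝ) ≤ d (e k * h) := by
    intro n
    obtain ⟨_, ⟨h, rfl⟩, hh⟩ := not_bddAbove_iff.1 hunb
      (2 * n + 2 * ∑ k ∈ range (n + 1), |d (e k)⁻¹|)
    refine ⟨h, fun k hk => ?_⟩
    have h2 := hd (e k) h
    have h3 : |d (e k)⁻¹| ≤ ∑ k ∈ range (n + 1), |d (e k)⁻¹| :=
      single_le_sum (f := fun k => |d (e k)⁻¹|) (fun _ _ => abs_nonneg _)
        (mem_range.2 (by omega))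
    have h4 := le_abs_self (d (e k)⁻¹)
    linarith
  choose h hh using h1
  set T : Set G := {g | ∃ p : ℕ × ℕ, p.2 ≤ p.1 ∧ g = e p.2 * h p.1} with hT
  refine ⟨T, fun t ht => ?_, fun E => ?_⟩
  · rw [← summable_subtype_iff_indicator]
    choose ι hι1 hι2 using fun g : T => g.2
    have hinj : Function.Injective ι := by
      intro a b hab
      apply Subtype.ext
      rw [hι2 a, hι2 b, hab]
    set r := Real.exp (-t / 2) with hr
    have hr0 : 0 ≤ r := (Real.exp_pos _).le
    have hr1 : r < 1 := Real.exp_lt_one_iff.2 (by linarith)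
    have hs : Summable (fun p : ℕ × ℕ => r ^ p.1 * r ^ p.2) :=
      (summable_geometric_of_lt_one hr0 hr1).mul_of_nonneg
        (summable_geometric_of_lt_one hr0 hr1) (fun n => pow_nonneg hr0 n)
        (fun n => pow_nonneg hr0 n)
    refine Summable.of_nonneg_of_le (fun g => (Real.exp_pos _).le) (fun g => ?_)
      (hs.comp_injective hinj)
    simp only [Function.comp_apply, hr, ← Real.exp_nat_mul, ← Real.exp_add]
    apply Real.exp_le_exp.2
    have h2 := hh (ι g).1 (ι g).2 (hι1 g)
    rw [← hι2 g] at h2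
    have h3 : ((ι g).2 : ℝ) ≤ (ι g).1 := by exact_mod_cast hι1 g
    nlinarith
  · choose k hk using he
    refine ⟨h (E.sup k), fun f hf => ⟨(E.sup k, k f), le_sup hf, ?_⟩⟩
    simp only [hk]

lemma bdd_of_summable {G F : Type*} [NormedAddCommGroup F] [CompleteSpace F] {z : G → F}
    (hz : Summable z) : ∃ C, ∀ E : Finset G, ‖∑ g ∈ E, z g‖ ≤ C := by
  classical
  obtain ⟨s, hs⟩ := summable_iff_vanishing_norm.1 hz 1 one_pos
  refine ⟨∑ g ∈ s, ‖z g‖ + 1, fun E => ?_⟩
  rw [← sum_inter_add_sum_sdiff E s]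
  refine (norm_add_le _ _).trans (add_le_add ?_ (hs _ sdiff_disjoint).le)
  exact (norm_sum_le _ _).trans
    (sum_le_sum_of_subset_of_nonneg inter_subset_right (fun _ _ _ => norm_nonneg _))

namespace Sys

variable {G H : Type*} [Group G] [NormedAddCommGroup H] [InnerProductSpace ℂ H] [CompleteSpace H]
  (S : Sys G H)

lemma coef_mul_u {x : H →L[ℂ] H} (hx : x ∈ S.sp) (f h : G) :
    S.coef (f * h) (x * S.u h) = S.coef f x * S.c f h := by
  classical
  induction hx using Submodule.span_induction with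
  | mem x hx =>
    obtain ⟨k, rfl⟩ := hx
    rw [S.u_mul, map_smul, coef_u, coef_u]
    by_cases hk : f = k
    · subst hk; simp
    · simp [hk]
  | zero => simp
  | add x y _ _ h1 h2 => rw [add_mul, map_add, map_add, h1, h2, add_mul]
  | smul r x _ h1 => rw [smul_mul_assoc, map_smul, map_smul, h1, smul_mul_assoc]

theorem exists_not_summable [Infinite G] {T : Set G}
    (hT : ∀ E : Finset G, ∃ h, ∀ f ∈ E, f * h ∈ T) :
    ∃ x ∈ closure (Submodule.span ℂ (S.u '' T) : Set (H →L[ℂ] H)),
      ¬ Summable (fun g => S.coef g x • S.u g) := by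
  classical
  by_contra hcon
  push Not at hcon
  set X := (Submodule.span ℂ (S.u '' T)).topologicalClosure with hX
  have : CompleteSpace X := (Submodule.isClosed_topologicalClosure _).completeSpace_coe
  set P : Finset G → X →L[ℂ] (H →L[ℂ] H) := fun E =>
    (∑ g ∈ E, (S.coef g).smulRight (S.u g)).comp X.subtypeL with hP
  have hPapply : ∀ E (x : X), P E x = ∑ g ∈ E, S.coef g x • S.u g := by
    intro E x
    simp [hP]
  obtain ⟨C, hC⟩ := banach_steinhaus (g := P) (fun x => by
    obtain ⟨C, hC⟩ := bdd_of_summable (hcon x x.2)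
    exact ⟨C, fun E => by rw [hPapply]; exact hC E⟩)
  apply S.not_uncond
  refine ⟨C, fun x hx E => ?_⟩
  obtain ⟨E0, a, hxa⟩ := S.exists_sum_of_mem_sp hx
  obtain ⟨h, hh⟩ := hT E0
  have hm : x * S.u h ∈ X := by
    apply Submodule.le_topologicalClosure
    rw [hxa, sum_mul]
    refine Submodule.sum_mem _ (fun f hf => ?_)
    rw [smul_mul_assoc, S.u_mul]
    exact Submodule.smul_mem _ _ (Submodule.smul_mem _ _
      (Submodule.subset_span ⟨f * h, hh f hf, rfl⟩))
  have h1 := (P (E.image (fun f => f * h))).le_of_opNorm_le (hC _) ⟨_, hm⟩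
  rw [hPapply, sum_image (fun f _ g _ hfg => mul_right_cancel hfg)] at h1
  have e : ∑ f ∈ E, S.coef (f * h) (x * S.u h) • S.u (f * h)
      = (∑ g ∈ E, S.coef g x • S.u g) * S.u h := by
    rw [sum_mul]
    refine sum_congr rfl (fun f _ => ?_)
    rw [S.coef_mul_u hx, smul_mul_assoc, S.u_mul, smul_smul]
  simp only at h1
  rw [e, S.norm_mul_u] at h1
  refine h1.trans (le_of_eq ?_)
  congr 1
  exact S.norm_mul_u x h

lemma coef_eq_zero {T : Set G} {x : H →L[ℂ] H}
    (hx : x ∈ closure (Submodule.span ℂ (S.u '' T) : Set (H →L[ℂ] H))) {g : G} (hg : g ∉ T) :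
    S.coef g x = 0 := by
  classical
  have hc : IsClosed {x : H →L[ℂ] H | S.coef g x = 0} := isClosed_eq (by fun_prop) (by fun_prop)
  refine closure_minimal (fun x hx => ?_) hc hx
  induction hx using Submodule.span_induction with
  | mem x hx =>
    obtain ⟨k, hk, rfl⟩ := hx
    have : g ≠ k := fun h => hg (h ▸ hk)
    simp [coef_u, this]
  | zero => simp
  | add x y _ _ h1 h2 =>
    simp only [Set.mem_ofPred_eq] at h1 h2 ⊢
    rw [map_add, h1, h2, add_zero]
  | smul r x _ h1 =>
    simp only [Set.mem_ofPred_eq] at h1 ⊢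
    rw [map_smul, h1, smul_zero]

/-- The Fourier multiplier of a summable function. -/
lemma exists_multiplier {w : G → ℝ} (hw : Summable w) :
    ∃ Y : (H →L[ℂ] H) →L[ℂ] (H →L[ℂ] H),
      ∀ x, HasSum (fun g => ((w g : ℂ) * S.coef g x) • S.u g) (Y x) := by
  have h1 : Summable (fun g => (w g : ℂ) • (S.coef g).smulRight (S.u g)) := by
    refine Summable.of_norm_bounded hw.abs (fun g => ?_)
    rw [norm_smul, Complex.norm_real, Real.norm_eq_abs, ContinuousLinearMap.norm_smulRight_apply,
      S.norm_u, mul_one]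
    refine mul_le_of_le_one_right (abs_nonneg _) ?_
    exact ContinuousLinearMap.opNorm_le_bound _ zero_le_one
      (fun x => by rw [one_mul]; exact S.norm_coef_le g x)
  refine ⟨∑' g, (w g : ℂ) • (S.coef g).smulRight (S.u g), fun x => ?_⟩
  have h2 := h1.hasSum.mapL (ContinuousLinearMap.apply ℂ (H →L[ℂ] H) x)
  simp only [ContinuousLinearMap.apply_apply, _root_.smul_apply,
    ContinuousLinearMap.smulRight_apply, smul_smul] at h2
  exact h2

lemma coef_of_hasSum {a : G → ℂ} {y : H →L[ℂ] H} (h : HasSum (fun g => a g • S.u g) y) (k : G) :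
    S.coef k y = a k := by
  classical
  have h1 := h.mapL (S.coef k)
  simp only [map_smul, coef_u, smul_eq_mul, mul_ite, mul_one, mul_zero] at h1
  have h2 : HasSum (fun g => if k = g then a g else 0) (a k) := by
    have := hasSum_ite_eq k (a k)
    convert this using 2 with g
    by_cases hg : k = g
    · simp [hg]
    · simp [hg, Ne.symm hg]
  exact h1.unique h2

lemma mem_alg_of_hasSum {a : G → ℂ} {y : H →L[ℂ] H} (h : HasSum (fun g => a g • S.u g) y) :
    y ∈ S.alg :=
  S.isClosed_alg.mem_of_tendsto h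
    (Eventually.of_forall (fun E => S.mem_alg_of_sp (S.sum_u_mem_sp E a)))

/-- The abstract form of the weak heat property. -/
theorem heat [Infinite G] [Countable G] (d : G → ℝ)
    (hd : ∀ f g, d g ≤ 2 * d f⁻¹ + 2 * d (f * g)) (hunb : ¬ BddAbove (Set.range d))
    (V : Submodule ℂ (H →L[ℂ] H)) (hV : ∀ x ∈ S.alg, x ∈ V) :
    ∃ x₀ : V, (x₀ : H →L[ℂ] H) ∈ S.alg ∧ (¬ Summable (fun g => S.coef g x₀ • S.u g)) ∧
      ∀ t : ℝ, 0 < t → ∃ y ∈ S.alg, Summable (fun g => S.coef g y • S.u g) ∧
        (∀ g, S.coef g y = (Real.exp (-t * d g) : ℂ) * S.coef g x₀) ∧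
        ∀ M : V →L[ℂ] V,
          (∀ (g : G) (v : V), (v : H →L[ℂ] H) = S.u g →
            (M v : H →L[ℂ] H) = (Real.exp (-t * d g) : ℂ) • S.u g) →
          (M x₀ : H →L[ℂ] H) = y := by
  classical
  obtain ⟨T, hT1, hT2⟩ := exists_set d hd hunb
  obtain ⟨x, hx, hxs⟩ := S.exists_not_summable hT2
  have hsub : (Submodule.span ℂ (S.u '' T) : Set (H →L[ℂ] H)) ⊆ S.sp :=
    Submodule.span_mono (Set.image_subset_range _ _)
  have hxa : x ∈ S.alg := closure_mono hsub hx
  refine ⟨⟨x, hV x hxa⟩, hxa, hxs, fun t ht => ?_⟩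
  obtain ⟨Y, hY⟩ := S.exists_multiplier (hT1 t ht)
  have hcoef : ∀ g, S.coef g (Y x) = (Real.exp (-t * d g) : ℂ) * S.coef g x := by
    intro g
    rw [S.coef_of_hasSum (hY x) g]
    by_cases hg : g ∈ T
    · rw [Set.indicator_of_mem hg]
    · rw [S.coef_eq_zero hx hg, mul_zero, mul_zero]
  refine ⟨Y x, S.mem_alg_of_hasSum (hY x), ?_, hcoef, fun M hM => ?_⟩
  · have := (hY x).summable
    simpa only [S.coef_of_hasSum (hY x)] using this
  · have hYu : ∀ g ∈ T, Y (S.u g) = (Real.exp (-t * d g) : ℂ) • S.u g := by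
      intro g hg
      refine (hY (S.u g)).unique ?_
      have := hasSum_ite_eq g ((Real.exp (-t * d g) : ℂ) • S.u g)
      convert this using 2 with k
      by_cases hk : k = g
      · subst hk
        simp [coef_u, Set.indicator_of_mem hg]
      · simp [coef_u, hk]
    have h1 : ∀ z ∈ Submodule.span ℂ (S.u '' T), ∀ v : V, (v : H →L[ℂ] H) = z →
        (M v : H →L[ℂ] H) = Y z := by
      intro z hz
      induction hz using Submodule.span_induction with
      | mem z hz =>
        obtain ⟨g, hg, rfl⟩ := hz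
        intro v hv
        rw [hM g v hv, hYu g hg]
      | zero =>
        intro v hv
        have : v = 0 := Subtype.ext hv
        simp [this]
      | add a b ha hb h1 h2 =>
        intro v hv
        have e : v = ⟨a, hV a (S.mem_alg_of_sp (hsub ha))⟩ + ⟨b, hV b (S.mem_alg_of_sp (hsub hb))⟩ :=
          Subtype.ext hv
        rw [e, map_add, map_add, Submodule.coe_add, h1 _ rfl, h2 _ rfl]
      | smul r a ha h1 =>
        intro v hv
        have e : v = r • ⟨a, hV a (S.mem_alg_of_sp (hsub ha))⟩ := Subtype.ext hv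
        rw [e, map_smul, map_smul, Submodule.coe_smul, h1 _ rfl]
    have hc : IsClosed {v : V | (M v : H →L[ℂ] H) = Y v} := isClosed_eq (by fun_prop) (by fun_prop)
    set W : Set V := {v : V | (v : H →L[ℂ] H) ∈ Submodule.span ℂ (S.u '' T)} with hW
    have h2 : (⟨x, hV x hxa⟩ : V) ∈ closure W := by
      rw [Topology.IsInducing.subtypeVal.closure_eq_preimage_closure_image]
      refine closure_mono (fun z hz => ?_) hx
      exact ⟨⟨z, hV z (S.mem_alg_of_sp (hsub hz))⟩, hz, rfl⟩
    exact closure_minimal (s := W) (fun v hv => h1 v hv v rfl) hc h2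

end Sys

end Pool.Agent.P.MP_6efe58_an
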