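import Pool.Agent.P.MP_6efe58_an.Basic

/-!
# The operator norm is not dominated by the 2-norm when the group is infinite
-/

set_option autoImplicit false

namespace Pool.Agent.P.MP_6efe58_an

open scoped InnerProductSpace ComplexConjugate
open Finset Filter Topology

namespace Sys

variable {G H : Type*} [Group G] [NormedAddCommGroup H] [InnerProductSpace ℂ H] [CompleteSpace H]
  (S : Sys G H)

/-- The powers of a positive element of norm one converge to a nonzero projection. -/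
lemma exists_proj {C : ℝ} (hC0 : 0 ≤ C) (hC : ∀ x ∈ S.alg, ‖x‖ ≤ C * ‖x S.Ω‖)
    {a : H →L[ℂ] H} (ha : a ∈ S.alg) (ha0 : 0 ≤ a) (ha1 : ‖a‖ = 1) :
    ∃ q ∈ S.alg, star q = q ∧ q * q = q ∧ q ≠ 0 ∧ a * q = q ∧ ∀ p, p * a = a → p * q = q := by
  have hsa : IsSelfAdjoint a := IsSelfAdjoint.of_nonneg ha0
  have hle : a ≤ 1 := (CStarAlgebra.norm_le_one_iff_of_nonneg a ha0).1 ha1.le
  set t : ℕ → ℝ := fun k => (S.coef 1 (a ^ k)).re with ht
  have hanti : Antitone t := fun k l hkl =>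
    S.re_coef_mono (CStarAlgebra.pow_antitone ha0 hle hkl)
  have hnn : ∀ k, 0 ≤ t k := fun k => S.re_coef_nonneg (CStarAlgebra.pow_nonneg ha0 k)
  have hbdd : BddBelow (Set.range t) := ⟨0, by rintro _ ⟨k, rfl⟩; exact hnn k⟩
  set L := ⨅ k, t k with hL
  have htL : Tendsto t atTop (𝓝 L) := tendsto_atTop_ciInf hanti hbdd
  have hLle : ∀ k, L ≤ t k := fun k => ciInf_le hbdd k
  have hcauchy : CauchySeq (fun k => a ^ k) := by
    refine cauchySeq_of_le_tendsto_0 (fun N => C * √(2 * (t N - L))) (fun k l N hk hl => ?_) ?_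
    · rw [dist_eq_norm]
      refine (hC _ (sub_mem (pow_mem ha k) (pow_mem ha l))).trans
        (mul_le_mul_of_nonneg_left ?_ hC0)
      apply Real.le_sqrt_of_sq_le
      rw [← S.re_coef_star_mul_self, star_sub, (hsa.pow k).star_eq, (hsa.pow l).star_eq]
      have e : (a ^ k - a ^ l) * (a ^ k - a ^ l)
          = a ^ (k + k) - a ^ (k + l) - a ^ (k + l) + a ^ (l + l) := by
        rw [sub_mul, mul_sub, mul_sub, ← pow_add, ← pow_add, ← pow_add, ← pow_add, add_comm l k]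
        abel
      rw [e]
      simp only [map_add, map_sub, Complex.add_re, Complex.sub_re]
      have h1 : t (k + k) ≤ t N := hanti (by omega)
      have h2 : t (l + l) ≤ t N := hanti (by omega)
      have h3 := hLle (k + l)
      simp only [ht] at h1 h2 h3 ⊢
      linarith
    · have h1 : Tendsto (fun N => C * √(2 * (t N - L))) atTop (𝓝 (C * √(2 * (L - L)))) :=
        ((htL.sub_const L).const_mul 2).sqrt.const_mul C
      simpa using h1
  obtain ⟨q, hq⟩ := cauchySeq_tendsto_of_complete hcauchy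
  have hq1 : Tendsto (fun k => a ^ (k + 1)) atTop (𝓝 q) := hq.comp (tendsto_add_atTop_nat 1)
  refine ⟨q, S.isClosed_alg.mem_of_tendsto hq (Eventually.of_forall (fun k => pow_mem ha k)),
    ?_, ?_, ?_, ?_, ?_⟩
  · have h1 : Tendsto (fun k => star (a ^ k)) atTop (𝓝 (star q)) := hq.star
    simp only [(hsa.pow _).star_eq] at h1
    exact tendsto_nhds_unique h1 hq
  · have h1 : Tendsto (fun k => a ^ k * a ^ k) atTop (𝓝 (q * q)) := hq.mul hq
    have h2 : Tendsto (fun k => a ^ (k + k)) atTop (𝓝 q) :=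
      hq.comp (tendsto_atTop_mono (fun k => Nat.le_add_right k k) tendsto_id)
    simp only [pow_add] at h2
    exact tendsto_nhds_unique h1 h2
  · have h1 : Tendsto (fun k => ‖a ^ 2 ^ k‖) atTop (𝓝 ‖q‖) :=
      (hq.comp (tendsto_pow_atTop_atTop_of_one_lt (one_lt_two))).norm
    simp only [hsa.norm_pow_two_pow, ha1, one_pow] at h1
    have h2 : (1 : ℝ) = ‖q‖ := tendsto_nhds_unique tendsto_const_nhds h1
    intro h0
    rw [h0, norm_zero] at h2
    exact one_ne_zero h2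
  · have h1 : Tendsto (fun k => a * a ^ k) atTop (𝓝 (a * q)) := hq.const_mul a
    simp only [← pow_succ'] at h1
    exact tendsto_nhds_unique h1 hq1
  · intro p hp
    have h1 : Tendsto (fun k => p * a ^ (k + 1)) atTop (𝓝 (p * q)) := hq1.const_mul p
    have h2 : ∀ k, p * a ^ (k + 1) = a ^ (k + 1) := fun k => by
      rw [pow_succ', ← mul_assoc, hp]
    simp only [h2] at h1
    exact tendsto_nhds_unique h1 hq1

lemma norm_proj {q : H →L[ℂ] H} (h1 : star q = q) (h2 : q * q = q) (h3 : q ≠ 0) : ‖q‖ = 1 := by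
  have h4 : ‖q‖ * ‖q‖ = ‖q‖ := by
    rw [← CStarRing.norm_star_mul_self, h1, h2]
  exact (mul_eq_left₀ (norm_ne_zero_iff.2 h3)).1 h4

lemma re_coef_proj {q : H →L[ℂ] H} (h1 : star q = q) (h2 : q * q = q) :
    (S.coef 1 q).re = ‖q S.Ω‖ ^ 2 := by
  rw [← S.re_coef_star_mul_self, h1, h2]

/-- A minimal projection. -/
lemma exists_min_proj {C : ℝ} (hC0 : 0 ≤ C) (hC : ∀ x ∈ S.alg, ‖x‖ ≤ C * ‖x S.Ω‖) :
    ∃ p ∈ S.alg, star p = p ∧ p * p = p ∧ 0 < (S.coef 1 p).re ∧
      ∀ q ∈ S.alg, star q = q → q * q = q → q ≠ 0 → p * q = q → q = p := by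
  have := S.nontrivial
  set P : Set ℝ := {r | ∃ p ∈ S.alg, star p = p ∧ p * p = p ∧ p ≠ 0 ∧ (S.coef 1 p).re = r} with hP
  have hne : P.Nonempty := ⟨_, 1, one_mem _, star_one _, one_mul _, one_ne_zero, rfl⟩
  have hCpos : 0 < C := by
    have h1 := hC 1 (one_mem _)
    rw [norm_one] at h1
    rcases hC0.eq_or_lt with h | h
    · rw [← h, zero_mul] at h1; linarith
    · exact h
  have hlow : ∀ r ∈ P, 1 / C ^ 2 ≤ r := by
    rintro r ⟨p, hp, h1, h2, h3, rfl⟩
    have h4 := hC p hp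
    rw [norm_proj h1 h2 h3] at h4
    rw [S.re_coef_proj h1 h2, div_le_iff₀ (by positivity)]
    nlinarith [norm_nonneg (p S.Ω)]
  have hbdd : BddBelow P := ⟨_, hlow⟩
  have hm : 0 < sInf P := lt_of_lt_of_le (by positivity) (le_csInf hne hlow)
  obtain ⟨r, ⟨p, hp, h1, h2, h3, rfl⟩, hr⟩ :=
    exists_lt_of_csInf_lt hne (show sInf P < 2 * sInf P by linarith)
  refine ⟨p, hp, h1, h2, lt_of_lt_of_le hm (csInf_le hbdd ⟨p, hp, h1, h2, h3, rfl⟩),
    fun q hq k1 k2 k3 k4 => ?_⟩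
  by_contra hne'
  have k5 : q * p = q := by
    have := congrArg star k4
    rwa [star_mul, h1, k1] at this
  have e1 : sInf P ≤ (S.coef 1 q).re := csInf_le hbdd ⟨q, hq, k1, k2, k3, rfl⟩
  have e2 : sInf P ≤ (S.coef 1 (p - q)).re := by
    refine csInf_le hbdd ⟨p - q, sub_mem hp hq, by rw [star_sub, h1, k1], ?_,
      sub_ne_zero.2 (Ne.symm hne'), rfl⟩
    rw [sub_mul, mul_sub, mul_sub, h2, k2, k4, k5]; abel
  rw [map_sub, Complex.sub_re] at e2
  linarith

lemma corner_sa {C : ℝ} (hC0 : 0 ≤ C) (hC : ∀ x ∈ S.alg, ‖x‖ ≤ C * ‖x S.Ω‖)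
    {p : H →L[ℂ] H} (hp : p ∈ S.alg) (h1 : star p = p) (h2 : p * p = p)
    (hmin : ∀ q ∈ S.alg, star q = q → q * q = q → q ≠ 0 → p * q = q → q = p)
    {x : H →L[ℂ] H} (hx : x ∈ S.alg) (hxs : IsSelfAdjoint x) : ∃ l : ℂ, p * x * p = l • p := by
  set y : H →L[ℂ] H := x + algebraMap ℝ _ ‖x‖ with hy
  have hy0 : 0 ≤ y := by
    have := hxs.neg_algebraMap_norm_le_self
    rwa [neg_le_iff_add_nonneg] at this
  set b := p * y * p with hb
  have hb0 : 0 ≤ b := by
    have := star_left_conjugate_nonneg hy0 p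
    rwa [h1] at this
  have e1 : b = p * x * p + ((‖x‖ : ℝ) : ℂ) • p := by
    rw [hb, hy, mul_add, add_mul, Algebra.algebraMap_eq_smul_one, mul_smul_comm, mul_one,
      smul_mul_assoc, h2, Complex.coe_smul]
  have hbm : b ∈ S.alg := by
    rw [e1]
    exact add_mem (mul_mem (mul_mem hp hx) hp) (SMulMemClass.smul_mem _ hp)
  have hpb : p * b = b := by rw [hb, ← mul_assoc, ← mul_assoc, h2]
  have hbp : b * p = b := by rw [hb, mul_assoc, h2]
  have key : ∃ l : ℂ, b = l • p := by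
    by_cases hb' : b = 0
    · exact ⟨0, by rw [hb', zero_smul]⟩
    · have hn : 0 < ‖b‖ := norm_pos_iff.2 hb'
      set a : H →L[ℂ] H := (‖b‖⁻¹ : ℝ) • b with ha
      have ham : a ∈ S.alg := by
        rw [ha, ← Complex.coe_smul]
        exact SMulMemClass.smul_mem _ hbm
      have ha0 : 0 ≤ a := smul_nonneg (inv_nonneg.2 hn.le) hb0
      have ha1 : ‖a‖ = 1 := by
        rw [ha, norm_smul, norm_inv, norm_norm, inv_mul_cancel₀ hn.ne']
      obtain ⟨q, hq, k1, k2, k3, k4, k5⟩ := S.exists_proj hC0 hC ham ha0 ha1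
      have k6 : q = p := hmin q hq k1 k2 k3 (k5 p (by rw [ha, mul_smul_comm, hpb]))
      rw [k6, ha, smul_mul_assoc, hbp] at k4
      refine ⟨((‖b‖ : ℝ) : ℂ), ?_⟩
      rw [← k4, Complex.coe_smul, smul_smul, mul_inv_cancel₀ hn.ne', one_smul]
  obtain ⟨l, hl⟩ := key
  refine ⟨l - ((‖x‖ : ℝ) : ℂ), ?_⟩
  rw [sub_smul, ← hl, e1]; abel

lemma corner {C : ℝ} (hC0 : 0 ≤ C) (hC : ∀ x ∈ S.alg, ‖x‖ ≤ C * ‖x S.Ω‖)
    {p : H →L[ℂ] H} (hp : p ∈ S.alg) (h1 : star p = p) (h2 : p * p = p)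
    (hmin : ∀ q ∈ S.alg, star q = q → q * q = q → q ≠ 0 → p * q = q → q = p)
    {x : H →L[ℂ] H} (hx : x ∈ S.alg) : ∃ l : ℂ, p * x * p = l • p := by
  have s1 : IsSelfAdjoint (x + star x) := IsSelfAdjoint.add_star_self x
  have s2 : IsSelfAdjoint (Complex.I • (x - star x)) := by
    rw [IsSelfAdjoint, star_smul, star_sub, star_star, Complex.star_def, Complex.conj_I, neg_smul,
      ← smul_neg, neg_sub]
  obtain ⟨l1, k1⟩ := S.corner_sa hC0 hC hp h1 h2 hmin (add_mem hx (star_mem hx)) s1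
  obtain ⟨l2, k2⟩ := S.corner_sa hC0 hC hp h1 h2 hmin
    (SMulMemClass.smul_mem _ (sub_mem hx (star_mem hx))) s2
  refine ⟨(1 / 2) * (l1 - Complex.I * l2), ?_⟩
  have e : x = (1 / 2 : ℂ) • ((x + star x) - Complex.I • (Complex.I • (x - star x))) := by
    rw [smul_smul, Complex.I_mul_I, neg_smul, one_smul, sub_neg_eq_add]
    module
  calc p * x * p = p * ((1 / 2 : ℂ) • ((x + star x) -
        Complex.I • (Complex.I • (x - star x)))) * p := by rw [← e]
    _ = (1 / 2 : ℂ) • (p * (x + star x) * p -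
        Complex.I • (p * (Complex.I • (x - star x)) * p)) := by
      simp only [mul_smul_comm, smul_mul_assoc, mul_sub, sub_mul]
    _ = _ := by rw [k1, k2]; module

lemma exists_separated [Infinite G] {B : Set G} (hB : B.Finite) (N : ℕ) :
    ∃ T : Finset G, #T = N ∧ ∀ g ∈ T, ∀ h ∈ T, g ≠ h → g⁻¹ * h ∉ B := by
  classical
  induction N with
  | zero => exact ⟨∅, rfl, by simp⟩
  | succ N ih =>
    obtain ⟨T, hT, hsep⟩ := ih
    have hfin : ((T : Set G) ∪ (Set.image2 (fun g b => g * b) T B ∪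
        Set.image2 (fun g b => g * b⁻¹) T B)).Finite :=
      T.finite_toSet.union ((T.finite_toSet.image2 _ hB).union (T.finite_toSet.image2 _ hB))
    obtain ⟨k, hk⟩ := hfin.infinite_compl.nonempty
    simp only [Set.mem_compl_iff, Set.mem_union, not_or] at hk
    obtain ⟨hk1, hk2, hk3⟩ := hk
    refine ⟨insert k T, by rw [card_insert_of_notMem hk1, hT], ?_⟩
    intro g hg h hh hgh hb
    rcases mem_insert.1 hg with rfl | hg'
    · rcases mem_insert.1 hh with rfl | hh'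
      · exact hgh rfl
      · exact hk3 ⟨h, hh', _, hb, by group⟩
    · rcases mem_insert.1 hh with rfl | hh'
      · exact hk2 ⟨g, hg', _, hb, by group⟩
      · exact hsep g hg' h hh' hgh hb

theorem not_norm_le [Infinite G] : ¬ ∃ C : ℝ, ∀ x ∈ S.alg, ‖x‖ ≤ C * ‖x S.Ω‖ := by
  classical
  rintro ⟨C, hC⟩
  have := S.nontrivial
  have hC0 : 0 ≤ C := by
    have h1 := hC 1 (one_mem _)
    rw [norm_one, one_apply_eq_self, S.norm_Ω] at h1
    linarith
  obtain ⟨p, hp, h1, h2, hτ, hmin⟩ := S.exists_min_proj hC0 hC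
  set τ := (S.coef 1 p).re with hτdef
  have hp0 : p ≠ 0 := by
    intro h0
    rw [hτdef, h0] at hτ
    simp at hτ
  have hnp : ‖p‖ = 1 := norm_proj h1 h2 hp0
  have hτn : ‖S.coef 1 p‖ = τ := by
    have e : S.coef 1 p = ((‖p S.Ω‖ ^ 2 : ℝ) : ℂ) := by
      conv_lhs => rw [← h2]
      nth_rewrite 1 [← h1]
      rw [S.coef_star_mul, inner_self_eq_norm_sq_to_K]
      norm_cast
    rw [hτdef, e, Complex.ofReal_re, Complex.norm_real, Real.norm_of_nonneg (by positivity)]
  -- the bad set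
  set B : Set G := {k | τ ^ 3 / 2 ≤ ‖S.coef k p‖} with hB
  have hBfin : B.Finite := by
    have h3 := (S.orth.inner_products_summable (p S.Ω)).tendsto_cofinite_zero
    have h4 := h3.eventually (gt_mem_nhds (show (0 : ℝ) < (τ ^ 3 / 2) ^ 2 by positivity))
    rw [Filter.eventually_cofinite] at h4
    refine h4.subset (fun k hk => ?_)
    simp only [Set.mem_ofPred_eq, not_lt]
    exact pow_le_pow_left₀ (by positivity) hk 2
  obtain ⟨N, hN⟩ := exists_nat_gt (2 / τ)
  obtain ⟨T, hT, hsep⟩ := exists_separated hBfin N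
  set q : G → H →L[ℂ] H := fun g => S.u g * p * star (S.u g) with hq
  have hqs : ∀ g, star (q g) = q g := fun g => by
    simp only [hq, star_mul, star_star, h1, mul_assoc]
  have hqτ : ∀ g, S.coef 1 (q g) = S.coef 1 p := fun g => by
    simp only [hq]
    rw [S.trace (mul_mem (S.u_mem_alg g) hp) (star_mem (S.u_mem_alg g)), ← mul_assoc, S.hsu,
      one_mul]
  have hqq : ∀ g, q g * q g = q g := fun g => by
    simp only [hq]
    calc S.u g * p * star (S.u g) * (S.u g * p * star (S.u g))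
        = S.u g * (p * (star (S.u g) * S.u g) * p) * star (S.u g) := by simp only [mul_assoc]
      _ = _ := by rw [S.hsu, mul_one, h2]
  have hoff : ∀ g ∈ T, ∀ h ∈ T, g ≠ h → ‖S.coef 1 (q h * q g)‖ ≤ τ ^ 2 / 2 := by
    intro g hg h hh hgh
    have hw : star (S.u h) * S.u g ∈ S.alg := mul_mem (star_mem (S.u_mem_alg h)) (S.u_mem_alg g)
    obtain ⟨l, hl⟩ := S.corner hC0 hC hp h1 h2 hmin hw
    have e1 : q h * q g = l • (S.u h * p * star (S.u g)) := by
      simp only [hq]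
      calc S.u h * p * star (S.u h) * (S.u g * p * star (S.u g))
          = S.u h * (p * (star (S.u h) * S.u g) * p) * star (S.u g) := by simp only [mul_assoc]
        _ = _ := by rw [hl, mul_smul_comm, smul_mul_assoc]
    have e2 : ‖S.coef 1 (S.u h * p * star (S.u g))‖ ≤ 1 := by
      refine (S.norm_coef_le _ _).trans ((norm_mul_le _ _).trans ?_)
      rw [norm_star, S.norm_u, mul_one]
      refine (norm_mul_le _ _).trans ?_
      rw [S.norm_u, hnp, mul_one]
    have e3 : l * S.coef 1 p = ⟪(star (S.u g) * S.u h) S.Ω, p S.Ω⟫_ℂ := by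
      rw [← S.coef_star_mul, star_mul, star_star, ← smul_eq_mul, ← map_smul, ← hl,
        S.trace (mul_mem hp hw) hp, ← mul_assoc, h2, S.trace hp hw]
    have e4 : ‖l‖ * τ = ‖S.coef (g⁻¹ * h) p‖ := by
      rw [← hτn, ← norm_mul, e3, S.star_u, smul_mul_assoc, S.u_mul, smul_smul,
        _root_.smul_apply, inner_smul_left, norm_mul, coef_apply, RCLike.norm_conj,
        norm_mul, norm_inv, S.norm_c, S.norm_c]
      simp
    have e5 : ‖S.coef (g⁻¹ * h) p‖ < τ ^ 3 / 2 := not_le.1 (hsep g hg h hh hgh)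
    have e6 : ‖l‖ ≤ τ ^ 2 / 2 := by
      by_contra hc
      push Not at hc
      nlinarith
    rw [e1, map_smul, smul_eq_mul, norm_mul]
    calc ‖l‖ * ‖S.coef 1 (S.u h * p * star (S.u g))‖ ≤ τ ^ 2 / 2 * 1 :=
          mul_le_mul e6 e2 (norm_nonneg _) (by positivity)
      _ = _ := mul_one _
  set x := ∑ g ∈ T, q g with hx
  have k1 : (N : ℝ) * τ ≤ ‖x S.Ω‖ := by
    refine le_trans ?_ (S.norm_coef_le' 1 x)
    rw [hx, map_sum]
    simp only [hqτ, sum_const, hT, nsmul_eq_mul, norm_mul, hτn, Complex.norm_natCast, le_refl]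
  have k2 : ‖x S.Ω‖ ^ 2 ≤ N * (τ + N * (τ ^ 2 / 2)) := by
    rw [← S.re_coef_star_mul_self, hx, star_sum]
    simp only [hqs]
    rw [sum_mul_sum, map_sum, Complex.re_sum]
    have k3 : ∀ h ∈ T, (S.coef 1 (∑ g ∈ T, q h * q g)).re ≤ τ + N * (τ ^ 2 / 2) := by
      intro h hh
      rw [map_sum, Complex.re_sum]
      have k4 : ∀ g ∈ T, (S.coef 1 (q h * q g)).re ≤ (if g = h then τ else 0) + τ ^ 2 / 2 := by
        intro g hg
        split_ifs with hgh
        · rw [hgh, hqq, hqτ]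
          have : 0 ≤ τ ^ 2 / 2 := by positivity
          linarith
        · rw [zero_add]
          exact (Complex.re_le_norm _).trans (hoff g hg h hh hgh)
      refine (sum_le_sum k4).trans ?_
      rw [sum_add_distrib, sum_ite_eq' T h, if_pos hh, sum_const, hT, nsmul_eq_mul]
    refine (sum_le_sum k3).trans ?_
    rw [sum_const, hT, nsmul_eq_mul]
  have k5 : ((N : ℝ) * τ) ^ 2 ≤ ‖x S.Ω‖ ^ 2 := pow_le_pow_left₀ (by positivity) k1 2
  rw [div_lt_iff₀ hτ] at hN
  have k6 : ((N : ℝ) * τ) ^ 2 ≤ N * τ + (N * τ) ^ 2 / 2 := by nlinarith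
  nlinarith

end Sys

end Pool.Agent.P.MP_6efe58_an
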