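import Pool.Agent.P.MP_6efe58_an.NoLeinert

/-!
# The unitaries of an infinite group are not an unconditional basic family
-/

set_option autoImplicit false

namespace Pool.Agent.P.MP_6efe58_an

open scoped InnerProductSpace ComplexConjugate
open Finset Filter Topology

lemma sum_abs_le_of_forall_subset {G : Type*} (E : Finset G) (z : G → ℝ) {K : ℝ}
    (h : ∀ E' ⊆ E, |∑ g ∈ E', z g| ≤ K) : ∑ g ∈ E, |z g| ≤ 2 * K := by
  classical
  have h1 := h (E.filter (fun g => 0 ≤ z g)) (filter_subset _ _)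
  have h2 := h (E.filter (fun g => ¬ 0 ≤ z g)) (filter_subset _ _)
  rw [← sum_filter_add_sum_filter_not E (fun g => 0 ≤ z g)]
  have e1 : ∑ g ∈ E.filter (fun g => 0 ≤ z g), |z g| = ∑ g ∈ E.filter (fun g => 0 ≤ z g), z g :=
    sum_congr rfl (fun g hg => abs_of_nonneg (mem_filter.1 hg).2)
  have e2 : ∑ g ∈ E.filter (fun g => ¬ 0 ≤ z g), |z g|
      = -∑ g ∈ E.filter (fun g => ¬ 0 ≤ z g), z g := by
    rw [← sum_neg_distrib]
    exact sum_congr rfl (fun g hg => abs_of_neg (not_le.1 (mem_filter.1 hg).2))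
  rw [e1, e2]
  have h3 := le_abs_self (∑ g ∈ E.filter (fun g => 0 ≤ z g), z g)
  have h4 := neg_le_abs (∑ g ∈ E.filter (fun g => ¬ 0 ≤ z g), z g)
  linarith

lemma sum_norm_le_of_forall_subset {G : Type*} (E : Finset G) (z : G → ℂ) {K : ℝ}
    (h : ∀ E' ⊆ E, ‖∑ g ∈ E', z g‖ ≤ K) : ∑ g ∈ E, ‖z g‖ ≤ 4 * K := by
  have h1 := sum_abs_le_of_forall_subset E (fun g => (z g).re) (K := K) (fun E' hE' => by
    rw [← Complex.re_sum]; exact (Complex.abs_re_le_norm _).trans (h E' hE'))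
  have h2 := sum_abs_le_of_forall_subset E (fun g => (z g).im) (K := K) (fun E' hE' => by
    rw [← Complex.im_sum]; exact (Complex.abs_im_le_norm _).trans (h E' hE'))
  have h3 : ∑ g ∈ E, ‖z g‖ ≤ ∑ g ∈ E, (|(z g).re| + |(z g).im|) :=
    sum_le_sum (fun g _ => Complex.norm_le_abs_re_add_abs_im _)
  rw [sum_add_distrib] at h3
  linarith

namespace Sys

variable {G H : Type*} [Group G] [NormedAddCommGroup H] [InnerProductSpace ℂ H] [CompleteSpace H]
  (S : Sys G H)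

lemma sum_u_mem_sp (E : Finset G) (a : G → ℂ) : ∑ g ∈ E, a g • S.u g ∈ S.sp :=
  S.sp.sum_mem (fun g _ => S.sp.smul_mem _ (S.u_mem_sp g))

/-- A choice of signs with a controlled fourth moment. -/
lemma exists_signs (w : G → ℝ) (E : Finset G) :
    ∃ a : G → ℂ, (∀ g, ‖a g‖ = |w g|) ∧
      ‖(star (∑ g ∈ E, a g • S.u g) * ∑ g ∈ E, a g • S.u g) S.Ω‖ ^ 2
        ≤ 3 * (∑ g ∈ E, w g ^ 2) ^ 2 := by
  classical
  induction E using Finset.induction_on with
  | empty => exact ⟨fun g => w g, fun g => by simp, by simp⟩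
  | insert k E hk ih =>
    obtain ⟨a, ha, hM⟩ := ih
    set y := ∑ g ∈ E, a g • S.u g with hy
    set N2 := ∑ g ∈ E, w g ^ 2 with hN2
    have hym : y ∈ S.alg := S.mem_alg_of_sp (S.sum_u_mem_sp E a)
    have hyn : ‖y S.Ω‖ ^ 2 = N2 := by
      rw [hy, S.norm_sum_u_apply_sq]
      exact sum_congr rfl (fun g _ => by rw [ha, sq_abs])
    set P := (star y * y) S.Ω + ((w k ^ 2 : ℝ) : ℂ) • S.Ω with hP
    set Q := ((w k : ℝ) : ℂ) • ((star y * S.u k) S.Ω + (star (S.u k) * y) S.Ω) with hQ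
    have hexp : ∀ e : ℝ, e ^ 2 = 1 →
        (star (((e * w k : ℝ) : ℂ) • S.u k + y) * (((e * w k : ℝ) : ℂ) • S.u k + y)) S.Ω
          = P + (e : ℂ) • Q := by
      intro e he
      have he' : (e : ℂ) ^ 2 = 1 := by exact_mod_cast he
      rw [star_add, star_smul, add_mul, mul_add, mul_add, smul_mul_assoc, smul_mul_assoc,
        mul_smul_comm, mul_smul_comm, S.hsu, Complex.star_def, Complex.conj_ofReal, hP, hQ]
      simp only [_root_.add_apply, _root_.smul_apply, one_apply_eq_self]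
      push_cast
      match_scalars
      · linear_combination (w k : ℂ) ^ 2 * he'
      · ring
      · ring
      · ring
    have hPn : ‖P‖ ^ 2 = ‖(star y * y) S.Ω‖ ^ 2 + 2 * w k ^ 2 * N2 + w k ^ 4 := by
      rw [hP, @norm_add_sq ℂ, inner_smul_right, ← inner_conj_symm, ← S.coef_one, norm_smul,
        S.norm_Ω, Complex.norm_real, Real.norm_of_nonneg (sq_nonneg _)]
      have := S.re_coef_star_mul_self y
      simp only [RCLike.re_to_complex, Complex.mul_re, Complex.ofReal_re, Complex.conj_re,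
        Complex.ofReal_im, zero_mul, sub_zero, this, hyn]
      ring
    have hQn : ‖Q‖ ^ 2 ≤ 4 * w k ^ 2 * N2 := by
      have h1 : ‖(star (S.u k) * y) S.Ω‖ ≤ ‖y S.Ω‖ := by
        rw [mul_apply_eq_comp]
        refine ((star (S.u k)).le_opNorm _).trans ?_
        rw [norm_star, S.norm_u, one_mul]
      have h2 : ‖(star y * S.u k) S.Ω‖ ≤ ‖y S.Ω‖ := by
        have h3 := S.norm_star_apply (mul_mem (star_mem (S.u_mem_alg k)) hym)
        rw [star_mul, star_star] at h3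
        rw [h3]; exact h1
      have h4 : ‖Q‖ ≤ |w k| * (2 * ‖y S.Ω‖) := by
        rw [hQ, norm_smul, Complex.norm_real, Real.norm_eq_abs]
        refine mul_le_mul_of_nonneg_left ((norm_add_le _ _).trans ?_) (abs_nonneg _)
        linarith
      calc ‖Q‖ ^ 2 ≤ (|w k| * (2 * ‖y S.Ω‖)) ^ 2 := pow_le_pow_left₀ (norm_nonneg _) h4 2
        _ = 4 * w k ^ 2 * N2 := by rw [mul_pow, sq_abs, mul_pow, hyn]; ring
    have hpar := parallelogram_law_with_norm ℂ P Q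
    have hN2' : 0 ≤ N2 := sum_nonneg (fun g _ => sq_nonneg _)
    obtain ⟨e, he, hle⟩ : ∃ e : ℝ, e ^ 2 = 1 ∧ ‖P + (e : ℂ) • Q‖ ^ 2 ≤ ‖P‖ ^ 2 + ‖Q‖ ^ 2 := by
      by_cases hc : ‖P + Q‖ ^ 2 ≤ ‖P‖ ^ 2 + ‖Q‖ ^ 2
      · exact ⟨1, by norm_num, by simpa using hc⟩
      · refine ⟨-1, by norm_num, ?_⟩
        have : P + ((-1 : ℝ) : ℂ) • Q = P - Q := by simp [sub_eq_add_neg]
        rw [this]
        nlinarith
    refine ⟨Function.update a k ((e * w k : ℝ) : ℂ), fun g => ?_, ?_⟩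
    · by_cases hg : g = k
      · subst hg
        rw [Function.update_self, Complex.norm_real, Real.norm_eq_abs, abs_mul]
        have : |e| = 1 := by
          have h1 : |e| ^ 2 = 1 ^ 2 := by rw [sq_abs, he, one_pow]
          exact (sq_eq_sq₀ (abs_nonneg _) zero_le_one).1 h1
        rw [this, one_mul]
      · rw [Function.update_of_ne hg, ha]
    · have e1 : ∑ g ∈ insert k E, Function.update a k ((e * w k : ℝ) : ℂ) g • S.u g
          = ((e * w k : ℝ) : ℂ) • S.u k + y := by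
        rw [sum_insert hk, Function.update_self, hy]
        congr 1
        refine sum_congr rfl (fun g hg => ?_)
        rw [Function.update_of_ne (ne_of_mem_of_not_mem hg hk)]
      rw [e1, hexp e he, sum_insert hk, ← hN2]
      nlinarith [sq_nonneg (w k ^ 2)]

/-- A contraction that correlates with an element of small fourth moment. -/
lemma exists_contraction {y : H →L[ℂ] H} (hy : y ∈ S.alg) :
    ∃ x ∈ S.alg, ‖x‖ ≤ 1 ∧ ‖y S.Ω‖ ^ 2 - ‖(star y * y) S.Ω‖ ^ 2 ≤ ‖⟪y S.Ω, x S.Ω⟫_ℂ‖ := by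
  set s := star y * y with hs
  have hs0 : 0 ≤ s := star_mul_self_nonneg y
  have hsa : IsSelfAdjoint s := IsSelfAdjoint.of_nonneg hs0
  have hsp : ∀ t ∈ spectrum ℝ s, 0 ≤ t := fun t ht => spectrum_nonneg_of_nonneg hs0 ht
  set f : ℝ → ℝ := fun t => (1 + t)⁻¹ with hf
  have hfc : ContinuousOn f (spectrum ℝ s) := by
    refine ContinuousOn.inv₀ (by fun_prop) (fun t ht => ?_)
    have := hsp t ht
    linarith
  set z := cfc f s with hz
  have hzm : z ∈ S.alg := cfc_mem f (mul_mem (star_mem hy) hy)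
  have hzs : star z = z := (cfc_predicate f s).star_eq
  have e1 : s * z = cfc (fun t => t * f t) s := by
    rw [cfc_mul (fun t => t) f s (by fun_prop) hfc, cfc_id' ℝ s]
  have hc1 : ContinuousOn (fun t => t * f t) (spectrum ℝ s) := continuousOn_id.mul hfc
  refine ⟨y * z, mul_mem hy hzm, ?_, ?_⟩
  · have e2 : star (y * z) * (y * z) = cfc (fun t => f t * (t * f t)) s := by
      rw [cfc_mul f (fun t => t * f t) s hfc hc1, ← e1, star_mul, hzs, hs]
      simp only [mul_assoc, hz, hs]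
    have h3 : ‖star (y * z) * (y * z)‖ ≤ 1 := by
      rw [e2]
      refine norm_cfc_le zero_le_one (fun t ht => ?_)
      have h0 := hsp t ht
      have h4 : 0 < 1 + t := by linarith
      simp only [hf]
      rw [Real.norm_of_nonneg (by positivity)]
      have e3 : (1 + t)⁻¹ * (t * (1 + t)⁻¹) = t / (1 + t) ^ 2 := by field_simp
      rw [e3, div_le_one (by positivity)]
      nlinarith
    rw [CStarRing.norm_star_mul_self] at h3
    nlinarith [norm_nonneg (y * z)]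
  · have h1 : s - s * s ≤ s * z := by
      have e2 : s - s * s = cfc (fun t : ℝ => t - t * t) s := by
        rw [cfc_sub (fun t : ℝ => t) (fun t => t * t) s, cfc_mul (fun t : ℝ => t) (fun t => t) s,
          cfc_id' ℝ s]
      rw [e1, e2]
      refine cfc_mono (fun t ht => ?_) (by fun_prop) hc1
      have h0 := hsp t ht
      have h4 : 0 < 1 + t := by linarith
      simp only [hf]
      rw [← div_eq_mul_inv, le_div_iff₀ h4]
      nlinarith [mul_nonneg h0 (mul_nonneg h0 h0)]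
    have h2 := S.re_coef_mono h1
    have h3 := S.re_coef_star_mul_self s
    rw [hsa.star_eq] at h3
    rw [map_sub, Complex.sub_re, h3, hs, S.re_coef_star_mul_self, mul_assoc,
      S.coef_star_mul] at h2
    exact h2.trans (Complex.re_le_norm _)

theorem not_uncond [Infinite G] :
    ¬ ∃ C : ℝ, ∀ x ∈ S.sp, ∀ E : Finset G, ‖∑ g ∈ E, S.coef g x • S.u g‖ ≤ C * ‖x‖ := by
  classical
  rintro ⟨C0, hC0⟩
  set C := |C0| with hCdef
  have hCnn : 0 ≤ C := abs_nonneg _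
  have hC : ∀ E : Finset G, ∀ x ∈ S.alg, ‖∑ g ∈ E, S.coef g x • S.u g‖ ≤ C * ‖x‖ := by
    intro E x hx
    have hc : IsClosed {x : H →L[ℂ] H | ‖∑ g ∈ E, S.coef g x • S.u g‖ ≤ C * ‖x‖} :=
      isClosed_le (by fun_prop) (by fun_prop)
    refine closure_minimal (fun x hx => ?_) hc (S.mem_alg.1 hx)
    exact (hC0 x hx E).trans (mul_le_mul_of_nonneg_right (le_abs_self _) (norm_nonneg _))
  have hA : ∀ (ξ η : H) (E : Finset G), ∀ x ∈ S.alg,
      ∑ g ∈ E, ‖S.coef g x‖ * ‖⟪η, S.u g ξ⟫_ℂ‖ ≤ 4 * (C * ‖x‖ * ‖ξ‖ * ‖η‖) := by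
    intro ξ η E x hx
    simp only [← norm_mul]
    refine sum_norm_le_of_forall_subset E _ (fun E' _ => ?_)
    have e : ∑ g ∈ E', S.coef g x * ⟪η, S.u g ξ⟫_ℂ
        = ⟪η, (∑ g ∈ E', S.coef g x • S.u g) ξ⟫_ℂ := by
      simp
    rw [e]
    refine (norm_inner_le_norm _ _).trans ?_
    rw [mul_comm]
    refine mul_le_mul_of_nonneg_right ?_ (norm_nonneg _)
    exact (ContinuousLinearMap.le_opNorm _ _).trans
      (mul_le_mul_of_nonneg_right (hC E' x hx) (norm_nonneg _))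
  have hB : ∀ (ξ η : H) (E : Finset G),
      √(∑ g ∈ E, ‖⟪η, S.u g ξ⟫_ℂ‖ ^ 2) ≤ 32 * C * ‖ξ‖ * ‖η‖ := by
    intro ξ η E
    set N := √(∑ g ∈ E, ‖⟪η, S.u g ξ⟫_ℂ‖ ^ 2) with hN
    have hN2 : N ^ 2 = ∑ g ∈ E, ‖⟪η, S.u g ξ⟫_ℂ‖ ^ 2 :=
      Real.sq_sqrt (sum_nonneg (fun g _ => sq_nonneg _))
    have hN0 : 0 ≤ N := Real.sqrt_nonneg _
    rcases hN0.eq_or_lt with h0 | h0
    · rw [← h0]; positivity
    obtain ⟨a, ha, hM⟩ := S.exists_signs (fun g => ‖⟪η, S.u g ξ⟫_ℂ‖ / (2 * N)) E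
    have hw : ∑ g ∈ E, (‖⟪η, S.u g ξ⟫_ℂ‖ / (2 * N)) ^ 2 = 1 / 4 := by
      simp only [div_pow]
      rw [← sum_div, ← hN2]
      field_simp
      norm_num
    have ha' : ∀ g, ‖a g‖ = ‖⟪η, S.u g ξ⟫_ℂ‖ / (2 * N) := fun g => by
      rw [ha, abs_of_nonneg (by positivity)]
    set y := ∑ g ∈ E, a g • S.u g with hy
    have hyn : ‖y S.Ω‖ ^ 2 = 1 / 4 := by
      rw [hy, S.norm_sum_u_apply_sq, ← hw]
      exact sum_congr rfl (fun g _ => by rw [ha'])
    obtain ⟨x, hx, hx1, hx2⟩ := S.exists_contraction (S.mem_alg_of_sp (S.sum_u_mem_sp E a))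
    rw [← hy] at hx2
    rw [hw] at hM
    have h1 : ‖⟪y S.Ω, x S.Ω⟫_ℂ‖ ≤ (∑ g ∈ E, ‖S.coef g x‖ * ‖⟪η, S.u g ξ⟫_ℂ‖) / (2 * N) := by
      have e : ⟪y S.Ω, x S.Ω⟫_ℂ = ∑ g ∈ E, conj (a g) * S.coef g x := by
        simp [hy, coef_apply, mul_comm]
      rw [e, sum_div]
      refine (norm_sum_le _ _).trans (sum_le_sum (fun g _ => le_of_eq ?_))
      rw [norm_mul, RCLike.norm_conj, ha']
      ring
    have h2 := hA ξ η E x hx
    have h3 : C * ‖x‖ * ‖ξ‖ * ‖η‖ ≤ C * 1 * ‖ξ‖ * ‖η‖ := by gcongr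
    have h4 : (1 : ℝ) / 16 ≤ (∑ g ∈ E, ‖S.coef g x‖ * ‖⟪η, S.u g ξ⟫_ℂ‖) / (2 * N) := by
      linarith
    rw [le_div_iff₀ (by positivity)] at h4
    linarith
  apply S.not_norm_le
  refine ⟨32 * C, fun x hx => ?_⟩
  have hc : IsClosed {x : H →L[ℂ] H | ‖x‖ ≤ 32 * C * ‖x S.Ω‖} :=
    isClosed_le (by fun_prop) (by fun_prop)
  refine closure_minimal (fun x hx => ?_) hc (S.mem_alg.1 hx)
  obtain ⟨E, a, rfl⟩ := S.exists_sum_of_mem_sp hx
  set x := ∑ g ∈ E, a g • S.u g with hx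
  refine ContinuousLinearMap.opNorm_le_bound _ (by positivity) (fun ξ => ?_)
  have h1 : ‖x ξ‖ * ‖x ξ‖ ≤ 32 * C * ‖x S.Ω‖ * ‖ξ‖ * ‖x ξ‖ := by
    have e : ⟪x ξ, x ξ⟫_ℂ = ∑ g ∈ E, a g * ⟪x ξ, S.u g ξ⟫_ℂ := by
      nth_rewrite 2 [hx]
      simp
    have h2 : ‖x ξ‖ * ‖x ξ‖ ≤ ∑ g ∈ E, ‖a g‖ * ‖⟪x ξ, S.u g ξ⟫_ℂ‖ := by
      rw [← @inner_self_eq_norm_mul_norm ℂ, e]
      refine (RCLike.re_le_norm _).trans ((norm_sum_le _ _).trans (le_of_eq ?_))
      simp only [norm_mul]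
    refine h2.trans ((Real.sum_mul_le_sqrt_mul_sqrt E _ _).trans ?_)
    rw [← S.norm_sum_u_apply_sq, ← hx, Real.sqrt_sq (norm_nonneg _)]
    calc ‖x S.Ω‖ * √(∑ g ∈ E, ‖⟪x ξ, S.u g ξ⟫_ℂ‖ ^ 2)
        ≤ ‖x S.Ω‖ * (32 * C * ‖ξ‖ * ‖x ξ‖) :=
          mul_le_mul_of_nonneg_left (hB ξ (x ξ) E) (norm_nonneg _)
      _ = _ := by ring
  rcases (norm_nonneg (x ξ)).eq_or_lt with h0 | h0
  · rw [← h0]; positivity
  · exact le_of_mul_le_mul_right h1 h0

end Sys

end Pool.Agent.P.MP_6efe58_an
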